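import Pool.Agent.H1.GEN.One
import Pool.Agent.H31.W1.H39.GEN.LabN

/-!
# The step of the induction, inside one class

`tgs k`: the labels of the coordinate `k` over any list of other coordinates, with any sides and
any gradients (`Pool.LBN.Tch`). They have thresholds in a subclass of every class.
`LocN n Φ`: for every class as in the exactness theorem (`Pool.GEN.ClX`), with any slack, the
threshold `P` of the labels of the last coordinate and the rate `r` of the last coordinate have the
property `Φ`. The exactness theorem in all smaller dimensions is available. In a proof one may pass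
to a subclass, for instance in order to have the thresholds of other systems of labels.
`Mic`, `Sta`, `Jmp`: the three local statements.
`DiaN n`: if the slack is small, the threshold of the last coordinate is at most `s (n - 1) + h` at
some window of the class.
`F1N n`: the rate of the last coordinate of a counterexample.
`leaf_rows`, `leaf_one`: the step of the induction.
-/

set_option autoImplicit false

namespace Pool.W.ONE

open Pool.ONE

open Set Pool.KA Pool.GEN Pool.STR Pool.LEV Pool.ALL
open Pool.LBT (LSys ThrOf Slo Tri)
open Pool.LBN (Tch)
open Pool.Agent.H49.Ent Pool.Agent.H32.Dense Pool.STK Pool.KSAT Pool.K2S Pool.PB Pool.S6C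

/-- **The labels of the coordinate `k`** over any list of other coordinates. -/
def tgs {n : ℕ} (k : Fin n) : Pool.LBT.LSys n where
  ι := Unit
  T _ K a w P := fun J F A => ∃ l : List (Fin n), l.Nodup ∧ k ∉ l ∧ Pool.W.LBN.Tch l k K a w P J F A
  her := by
    rintro - K a w P J F A B hB ⟨l, h1, h2, h3⟩
    exact ⟨l, h1, h2, Pool.W.LBN.Tch.her l k K a w P J F A B hB h3⟩
  anti := by
    rintro - K a w P P' J F A hP ⟨l, h1, h2, h3⟩
    exact ⟨l, h1, h2, h3.anti hP⟩
  mono := by
    rintro - K K' a a' w w' P J F A hK ha hw _ _ ⟨l, h1, h2, h3⟩
    exact ⟨l, h1, h2, h3.mono hK ha hw⟩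


variable {n : ℕ}


end Pool.W.ONE
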